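import Mathlib
import Pool.Agent.H317.GH.Stm

/-!
# GH, PRX: two representations with infinite image have the same character up to duality
-/

set_option autoImplicit false

namespace Pool.Agent.H100.GH

open Matrix Pool.Agent.H317.GR Pool.Agent.H317.GH

/-- the contragredient representation -/
noncomputable def contra {G : Type} [Group G] {n : ℕ} {K : Type} [Field K]
    (τ : G →* GL (Fin n) K) : G →* GL (Fin n) K where
  toFun g :=
    ⟨(τ g⁻¹).valᵀ, (τ g).valᵀ, by
      rw [← Matrix.transpose_mul, ← Units.val_mul, ← map_mul, mul_inv_cancel, map_one,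
        Units.val_one, Matrix.transpose_one], by
      rw [← Matrix.transpose_mul, ← Units.val_mul, ← map_mul, inv_mul_cancel, map_one,
        Units.val_one, Matrix.transpose_one]⟩
  map_one' := by
    apply Units.ext
    change (τ (1 : G)⁻¹).valᵀ = 1
    rw [inv_one, map_one, Units.val_one, Matrix.transpose_one]
  map_mul' g h := by
    apply Units.ext
    change (τ (g * h)⁻¹).valᵀ = (τ g⁻¹).valᵀ * (τ h⁻¹).valᵀ
    rw [← Matrix.transpose_mul, ← Units.val_mul, ← map_mul, _root_.mul_inv_rev]

theorem contra_val {G : Type} [Group G] {n : ℕ} {K : Type} [Field K]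
    (τ : G →* GL (Fin n) K) (g : G) : (contra τ g).val = (τ g⁻¹).valᵀ := rfl

theorem contra_infinite {G : Type} [Group G] {n : ℕ} {K : Type} [Field K]
    (τ : G →* GL (Fin n) K) (h : (Set.range τ).Infinite) : (Set.range (contra τ)).Infinite := by
  intro hf
  apply h
  -- `τ g = (transpose of (contra τ g⁻¹))`
  have key : Set.range (fun g => (τ g).val) ⊆
      (fun X : GL (Fin n) K => X.valᵀ) '' (Set.range (contra τ)) := by
    rintro _ ⟨g, rfl⟩
    refine ⟨contra τ g⁻¹, ⟨g⁻¹, rfl⟩, ?_⟩
    change ((contra τ g⁻¹).val)ᵀ = (τ g).val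
    rw [contra_val, Matrix.transpose_transpose, inv_inv]
  have hfin : (Set.range (fun g => (τ g).val)).Finite := (hf.image _).subset key
  have himg : Set.range (fun g => (τ g).val) =
      (fun X : GL (Fin n) K => X.val) '' (Set.range τ) := by
    ext X
    constructor
    · rintro ⟨g, rfl⟩
      exact ⟨τ g, ⟨g, rfl⟩, rfl⟩
    · rintro ⟨_, ⟨g, rfl⟩, rfl⟩
      exact ⟨g, rfl⟩
  rw [himg] at hfin
  exact Set.Finite.of_finite_image hfin (fun a _ b _ hab => Units.ext hab)

theorem prx : S_CNT → S_NFC → S_PRX := by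
  intro hcnt hnfc n hn Λ _ _ h1 h2 K _ _ _ τ τ' hτ hτ' hne
  have hX := hcnt n hn Λ h1 h2 K
  obtain ⟨a, b, hab, hset⟩ := Set.encard_eq_two.mp hX
  have mem : ∀ σ : Λ →* GL (Fin n) K, (Set.range σ).Infinite →
      (fun g => (σ g).val.trace) ∈ ({a, b} : Set (Λ → K)) := by
    intro σ hσ
    rw [← hset]
    exact ⟨⟨σ, fun g => rfl⟩, hnfc n hn Λ h1 K σ hσ⟩
  have m1 := mem τ hτ
  have m2 := mem (contra τ) (contra_infinite τ hτ)
  have m3 := mem τ' hτ'
  have e2 : (fun g => (contra τ g).val.trace) = (fun g => (τ g⁻¹).val.trace) := by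
    funext g
    rw [contra_val, Matrix.trace_transpose]
  rw [e2] at m2
  have hd : (fun g => (τ g).val.trace) ≠ (fun g => (τ g⁻¹).val.trace) := by
    intro h
    obtain ⟨g, hg⟩ := hne
    exact hg (congrFun h g)
  simp only [Set.mem_insert_iff, Set.mem_singleton_iff] at m1 m2 m3
  rcases m1 with m1 | m1 <;> rcases m2 with m2 | m2 <;> rcases m3 with m3 | m3
  · exact absurd (m1.trans m2.symm) hd
  · exact absurd (m1.trans m2.symm) hd
  · left
    intro g
    exact congrFun (m3.trans m1.symm) g
  · right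
    intro g
    exact congrFun (m3.trans m2.symm) g
  · right
    intro g
    exact congrFun (m3.trans m2.symm) g
  · left
    intro g
    exact congrFun (m3.trans m1.symm) g
  · exact absurd (m1.trans m2.symm) hd
  · exact absurd (m1.trans m2.symm) hd

end Pool.Agent.H100.GH
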